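import Pool.Agent.Helper14.CV.StC

/-!
Project CV (MP_3c9520_nt), module TRC: the dimension of a space of functions with a sign
character by counting fixed points.
-/

set_option autoImplicit false

namespace Pool.Agent.Helper78.CV

open Pool.Agent.Helper14.CV

variable {ι : Type} [Fintype ι] [DecidableEq ι] {H : Type} [Group H] [Fintype H] [MulAction H ι]

/-- The average. -/
private noncomputable def av (w : H →* ℤˣ) : (ι → ℂ) →ₗ[ℂ] (ι → ℂ) where
  toFun F := fun i => (Fintype.card H : ℂ)⁻¹ * ∑ g : H, ((w g : ℤ) : ℂ) * F (g • i)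
  map_add' F F' := by
    funext i
    simp only [Pi.add_apply, mul_add, Finset.sum_add_distrib]
  map_smul' c F := by
    funext i
    simp only [Pi.smul_apply, smul_eq_mul, RingHom.id_apply]
    rw [mul_left_comm c, Finset.mul_sum (a := c)]
    congr 1
    refine Finset.sum_congr rfl fun g _ => ?_
    ring

omit [Fintype ι] [DecidableEq ι] in
private theorem av_apply (w : H →* ℤˣ) (F : ι → ℂ) (i : ι) :
    av w F i = (Fintype.card H : ℂ)⁻¹ * ∑ g : H, ((w g : ℤ) : ℂ) * F (g • i) := rfl

omit [Fintype H] in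
private theorem sq_one (w : H →* ℤˣ) (g : H) : ((w g : ℤ) : ℂ) * ((w g : ℤ) : ℂ) = 1 := by
  rw [← Int.cast_mul, ← Units.val_mul, Int.units_mul_self]
  simp

private theorem card_ne : (Fintype.card H : ℂ) ≠ 0 := by
  exact_mod_cast Fintype.card_ne_zero

/-- MODULE TRC. -/
theorem hTrc : StTrc := by
  intro ι _ _ H _ _ _ w V hV
  have hproj : LinearMap.IsProj V (av (ι := ι) w) := by
    refine ⟨?_, ?_⟩
    · intro F
      rw [hV]
      intro h i
      rw [av_apply, av_apply, mul_left_comm]
      congr 1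
      rw [Finset.mul_sum, ← Equiv.sum_comp (Equiv.mulRight h)
        (fun g => ((w h : ℤ) : ℂ) * (((w g : ℤ) : ℂ) * F (g • i)))]
      refine Finset.sum_congr rfl fun g _ => ?_
      rw [Equiv.coe_mulRight, map_mul, Units.val_mul, Int.cast_mul, mul_smul]
      linear_combination (-(((w g : ℤ) : ℂ) * F (g • h • i))) * sq_one w h
    · intro F hF
      rw [hV] at hF
      funext i
      rw [av_apply]
      have e : ∀ g ∈ (Finset.univ : Finset H), ((w g : ℤ) : ℂ) * F (g • i) = F i := by
        intro g _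
        rw [hF g i, ← mul_assoc, sq_one, one_mul]
      rw [Finset.sum_congr rfl e, Finset.sum_const, Finset.card_univ, nsmul_eq_mul, ← mul_assoc,
        inv_mul_cancel₀ card_ne, one_mul]
  have htr := hproj.trace
  rw [← htr, LinearMap.trace_eq_matrix_trace ℂ (Pi.basisFun ℂ ι), Matrix.trace]
  have e : ∀ i ∈ (Finset.univ : Finset ι),
      Matrix.diag (LinearMap.toMatrix (Pi.basisFun ℂ ι) (Pi.basisFun ℂ ι) (av w)) i =
      (Fintype.card H : ℂ)⁻¹ * ∑ g : H, ((w g : ℤ) : ℂ) * (if g • i = i then 1 else 0) := by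
    intro i _
    rw [Matrix.diag_apply, LinearMap.toMatrix_apply, Pi.basisFun_repr, Pi.basisFun_apply, av_apply]
    congr 1
    refine Finset.sum_congr rfl fun g _ => ?_
    rw [Pi.single_apply]
  rw [Finset.sum_congr rfl e, ← Finset.mul_sum, Finset.sum_comm, mul_right_comm,
    inv_mul_cancel₀ card_ne, one_mul]
  refine Finset.sum_congr rfl fun g _ => ?_
  rw [← Finset.mul_sum, Finset.sum_boole]

end Pool.Agent.Helper78.CV
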